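import Pool.Agent.H.MP_baf2fc_al.Mag

set_option autoImplicit false

namespace Pool.Agent.H.MP_baf2fc_al

open PowerSeries MonoidAlgebra

variable {k : Type} [Field k] {β : Type}

variable (k β) in
noncomputable def τ : MonoidAlgebra k (W β) →ₐ[k] LaurentPolynomial k :=
  MonoidAlgebra.lift k _ _
    { toFun := fun g => LaurentPolynomial.T g.d
      map_one' := LaurentPolynomial.T_zero
      map_mul' := fun _ _ => LaurentPolynomial.T_add _ _ }

theorem τ_coeff (p : MonoidAlgebra k (W β)) :
    (τ k β p).coeff = Finsupp.mapDomain W.d p.coeff := by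
  induction p using MonoidAlgebra.induction_linear with
  | zero => simp
  | add a b ha hb => simp [ha, hb, Finsupp.mapDomain_add]
  | single g c =>
    rw [τ, MonoidAlgebra.lift_single, MonoidAlgebra.coeff_single, Finsupp.mapDomain_single]
    show (c • AddMonoidAlgebra.single g.d (1 : k)).coeff = _
    rw [AddMonoidAlgebra.smul_single', mul_one, AddMonoidAlgebra.coeff_single]

variable (k β) in
noncomputable def cc : PS k β →ₐ[k] MonoidAlgebra k (W β) :=
  { PowerSeries.constantCoeff with commutes' := fun c => by simp [PowerSeries.algebraMap_apply] }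

theorem exists_pt (a : MonoidAlgebra k (F β)) (h : F β) (hh : h ∈ a.coeff.support) :
    ∃ g : W β, (coeff g.w.length (μ k β a)).coeff g ≠ 0 ∧ g.d = deg h := by
  classical
  let a1 : MonoidAlgebra k (F β) := .ofCoeff (a.coeff.filter fun x => deg x = deg h)
  let a2 : MonoidAlgebra k (F β) := .ofCoeff (a.coeff.filter fun x => ¬ deg x = deg h)
  have e : a = a1 + a2 := by
    rw [← ofCoeff_add, Finsupp.filter_add_filter_not]
  have h1 : μ k β a1 ≠ 0 := fun h0 => by
    have := congrArg (fun x : MonoidAlgebra k (F β) => x.coeff h) (μ_inj a1 h0)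
    simp only [a1, Finsupp.filter_apply_pos (fun x => deg x = deg h) a.coeff rfl] at this
    exact Finsupp.mem_support_iff.1 hh this
  obtain ⟨n, g, hg⟩ : ∃ n g, (coeff n (μ k β a1)).coeff g ≠ 0 := by
    by_contra hc
    push Not at hc
    exact h1 (by ext n g; simpa using hc n g)
  obtain ⟨rfl, x, hx, ex⟩ := Sp_μ a1 n g hg
  have hx' : deg x = deg h := by
    simp only [a1, Finsupp.support_filter, Finset.mem_filter] at hx
    exact hx.2
  refine ⟨g, ?_, ex.trans hx'⟩
  have h2 : (coeff g.w.length (μ k β a2)).coeff g = 0 := by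
    by_contra hne
    obtain ⟨-, x', hx2, ex2⟩ := Sp_μ a2 _ g hne
    simp only [a2, Finsupp.support_filter, Finset.mem_filter] at hx2
    exact hx2.2 (by rw [← ex2, ex, hx'])
  rw [e, map_add, map_add, MonoidAlgebra.coeff_add, Finsupp.add_apply, h2, add_zero]
  exact hg

theorem bdd (S : Set (F β)) (hS : S.Finite) : ∃ D : ℤ, ∀ h ∈ S, |deg h| ≤ D := by
  obtain ⟨D, hD⟩ := (hS.image fun h => |deg h|).bddAbove
  exact ⟨D, fun h hh => hD ⟨h, hh, rfl⟩⟩

theorem core (s : Finset (MonoidAlgebra k (F β))) (a1 : MonoidAlgebra k (F β)) (ha1 : a1 ∈ s)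
    (h1 : F β) (hh1 : h1 ∈ a1.coeff.support) (hd : deg h1 ≠ 0) :
    ∃ f : Algebra.adjoin k (s : Set (MonoidAlgebra k (F β))) →ₐ[k] LaurentPolynomial k,
      f.range ≠ ⊥ := by
  classical
  by_contra hcon
  push Not at hcon
  let P : Set (W β) := {g | ∃ a ∈ s, (coeff g.w.length (μ k β a)).coeff g ≠ 0}
  have h0 : ∀ g ∈ P, g.w.length = 0 → g = 1 := by
    rintro g ⟨a, ha, hg⟩ hl
    have hm : τ k β (cc k β (μ k β a)) ∈ (⊥ : Subalgebra k (LaurentPolynomial k)) := by
      rw [← hcon (((τ k β).comp ((cc k β).comp (μ k β))).comp (Subalgebra.val _))]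
      exact ⟨⟨a, Algebra.subset_adjoin ha⟩, rfl⟩
    obtain ⟨c, hc⟩ := Algebra.mem_bot.1 hm
    have e : cc k β (μ k β a) = coeff 0 (μ k β a) := by
      rw [coeff_zero_eq_constantCoeff]; rfl
    have := Finsupp.mapDomain_apply' {g : W β | g.w.length = 0} (f := W.d)
      (coeff 0 (μ k β a)).coeff
      (fun x hx => (Sp_μ a 0 x (Finsupp.mem_support_iff.1 hx)).1)
      (fun x hx y hy hxy => W.ext
        (by rw [List.length_eq_zero_iff.1 hx, List.length_eq_zero_iff.1 hy]) hxy) hl
    rw [← τ_coeff, ← e, ← hc, e] at this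
    rw [hl, ← this] at hg
    refine W.ext (List.length_eq_zero_iff.1 hl) ?_
    by_contra hne
    exact hg (Finsupp.single_eq_of_ne hne)
  have hfin : ∀ N, {g ∈ P | g.w.length ≤ N}.Finite := fun N => by
    refine (s.finite_toSet.biUnion fun a _ => (Set.finite_Iic N).biUnion fun n _ =>
      (coeff n (μ k β a)).coeff.support.finite_toSet).subset ?_
    rintro g ⟨⟨a, ha, hg⟩, hN⟩
    simp only [Set.mem_iUnion]
    exact ⟨a, ha, _, hN, Finsupp.mem_support_iff.2 hg⟩
  obtain ⟨D, hD⟩ := bdd _ (s.finite_toSet.biUnion fun a _ => a.coeff.support.finite_toSet)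
  obtain ⟨g1, hg1, e1⟩ := exists_pt a1 h1 hh1
  obtain ⟨good, stab, go, st, gm, sm, hP, ⟨g0, ⟨a0, ha0, hg0⟩, sg0, lg0⟩, huniq, hbd⟩ :=
    select P hfin D (by
      rintro g ⟨a, ha, hg⟩
      obtain ⟨-, h, hh, e⟩ := Sp_μ a _ g hg
      rw [e]
      exact hD h (by simp only [Set.mem_iUnion]; exact ⟨a, ha, hh⟩)) h0 g1 ⟨a1, ha1, hg1⟩
      (by rwa [e1])
  let Λ : MonoidAlgebra k (W β) →ₗ[k] k :=
    Finsupp.linearCombination k (fun g => if stab g then (1 : k) else 0) ∘ₗ
      (coeffLinearEquiv k).toLinearMap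
  have Λs : ∀ g c, Λ (single g c) = if stab g then c else 0 := fun g c => by simp [Λ]
  have Λe : ∀ p, Λ p = ∑ g ∈ p.coeff.support, if stab g then p.coeff g else 0 := fun p => by
    conv_lhs => rw [← sum_coeff_single p, Finsupp.sum, map_sum]
    simp only [Λs]
  have Λm : ∀ p q : MonoidAlgebra k (W β), (∀ g, p.coeff g ≠ 0 → good g) →
      (∀ g, q.coeff g ≠ 0 → good g) → Λ (p * q) = Λ p * Λ q := fun p q hp hq => by
    rw [Λe p, Λe q, Finset.sum_mul_sum, MonoidAlgebra.mul_def, Finsupp.sum, map_sum]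
    refine Finset.sum_congr rfl fun a ha => ?_
    rw [Finsupp.sum, map_sum]
    refine Finset.sum_congr rfl fun b hb => ?_
    rw [Λs, sm a b (hp a (Finsupp.mem_support_iff.1 ha)) (hq b (Finsupp.mem_support_iff.1 hb))]
    by_cases h : stab a <;> by_cases h' : stab b <;> simp [h, h']
  let B : Subalgebra k (MonoidAlgebra k (F β)) :=
    { carrier := {a | Sp (fun _ g => good g) (μ k β a)}
      mul_mem' := fun {a b} ha hb => by
        show Sp _ _
        rw [map_mul]; exact Sp.mul ha hb fun _ _ _ _ => gm _ _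
      add_mem' := fun {a b} ha hb => by
        show Sp _ _
        rw [map_add]; exact Sp.add ha hb
      algebraMap_mem' := fun c => by
        show Sp _ _
        rw [AlgHom.commutes, Algebra.algebraMap_eq_smul_one]; exact (Sp_one go).smul c }
  have hle : Algebra.adjoin k (s : Set (MonoidAlgebra k (F β))) ≤ B :=
    Algebra.adjoin_le fun a ha n g hg => hP g ⟨a, ha, by rwa [(Sp_μ a n g hg).1]⟩
  have Λ1 : Λ 1 = 1 := by rw [MonoidAlgebra.one_def, Λs, if_pos st]
  let f0 : B →ₐ[k] PowerSeries k := AlgHom.ofLinearMap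
    { toFun := fun a => PowerSeries.mk fun n => Λ (PowerSeries.coeff n (μ k β a))
      map_add' := fun a b => by ext n; simp
      map_smul' := fun c a => by ext n; simp }
    (by
      ext n
      simp only [LinearMap.coe_mk, AddHom.coe_mk, coeff_mk, OneMemClass.coe_one, map_one, coeff_one]
      split_ifs <;> simp [Λ1])
    (fun a b => by
      ext n
      simp only [LinearMap.coe_mk, AddHom.coe_mk, coeff_mk, MulMemClass.coe_mul, map_mul,
        PowerSeries.coeff_mul, map_sum]
      exact Finset.sum_congr rfl fun x _ => Λm _ _ (a.2 _) (b.2 _))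
  have f0c : ∀ (a : B) n, PowerSeries.coeff n (f0 a) = Λ (PowerSeries.coeff n (μ k β a)) := fun a n => by
    simp only [f0, AlgHom.ofLinearMap_apply, LinearMap.coe_mk, AddHom.coe_mk, coeff_mk]
  have hinj : Function.Injective (Polynomial.coeToPowerSeries.algHom (R := k) k) := by
    intro p q h
    apply Polynomial.coe_injective
    simpa [Polynomial.coeToPowerSeries.algHom_apply] using h
  have hpoly : ∀ a : B, f0 a ∈ (Polynomial.coeToPowerSeries.algHom (R := k) k).range := by
    intro a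
    obtain ⟨D', hD'⟩ := bdd _ a.1.coeff.support.finite_toSet
    obtain ⟨N, hN⟩ := hbd D'
    refine ⟨trunc (N + 1) (f0 a), ?_⟩
    ext n
    simp only [AlgHom.toRingHom_eq_coe, RingHom.coe_coe, Polynomial.coeToPowerSeries.algHom_apply,
      Algebra.algebraMap_self, PowerSeries.map_id, id_eq, Polynomial.coeff_coe, coeff_trunc]
    split_ifs with hn
    · rfl
    · rw [f0c, Λe]
      refine (Finset.sum_eq_zero fun g hg => if_neg fun hs => ?_).symm
      obtain ⟨e, h, hh, e'⟩ := Sp_μ _ _ _ (Finsupp.mem_support_iff.1 hg)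
      have := hN g hs (by rw [e']; exact hD' h hh)
      omega
  let f1 : B →ₐ[k] Polynomial k :=
    (AlgEquiv.ofInjective _ hinj).symm.toAlgHom.comp (f0.codRestrict _ hpoly)
  have f1c : ∀ a : B, Polynomial.coeToPowerSeries.algHom (R := k) k (f1 a) = f0 a := fun a =>
    congrArg Subtype.val ((AlgEquiv.ofInjective _ hinj).apply_symm_apply ⟨f0 a, hpoly a⟩)
  have hm : Polynomial.toLaurentAlg (f1 ⟨a0, hle (Algebra.subset_adjoin ha0)⟩) ∈
      (⊥ : Subalgebra k (LaurentPolynomial k)) := by
    rw [← hcon (Polynomial.toLaurentAlg.comp (f1.comp (Subalgebra.inclusion hle)))]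
    exact ⟨⟨a0, Algebra.subset_adjoin ha0⟩, rfl⟩
  obtain ⟨c, hc⟩ := Algebra.mem_bot.1 hm
  rw [← Polynomial.toLaurentAlg.commutes] at hc
  have hc' := Polynomial.toLaurent_injective hc
  have := congrArg (PowerSeries.coeff g0.w.length) (f1c ⟨a0, hle (Algebra.subset_adjoin ha0)⟩)
  rw [← hc', AlgHom.commutes, f0c, Λe, algebraMap_eq, coeff_C, if_neg lg0.ne',
    Finset.sum_eq_single g0, if_pos sg0] at this
  · exact hg0 this.symm
  · intro b hb hne
    exact if_neg fun hs => hne (huniq _ _ hs sg0 (Sp_μ _ _ _ (Finsupp.mem_support_iff.1 hb)).1)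
  · intro h; exact absurd (Finsupp.mem_support_iff.2 hg0) h

end Pool.Agent.H.MP_baf2fc_al
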