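import Pool.Agent.H.MP_baf2fc_al.Mon

set_option autoImplicit false

namespace Pool.Agent.H.MP_baf2fc_al

open PowerSeries MonoidAlgebra

/-- the unit `1 + X u` -/
noncomputable def U {A : Type} [Ring A] (u : A) : (PowerSeries A)ˣ where
  val := 1 + X * C u
  inv := PowerSeries.mk fun n => (-u) ^ n
  val_inv := by
    ext n
    cases n with
    | zero => simp [add_mul, mul_assoc]
    | succ n => simp [add_mul, mul_assoc, coeff_succ_X_mul, coeff_one, pow_succ' (-u)]
  inv_val := by
    ext n
    rw [mul_add, mul_one, ← mul_assoc, ← (commute_X _).eq.symm, mul_assoc]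
    cases n with
    | zero => simp
    | succ n => simp [coeff_succ_X_mul, coeff_one, pow_succ (-u)]

variable (k : Type) [Field k] (β : Type)

abbrev PS := PowerSeries (MonoidAlgebra k (W β))
abbrev F := FreeGroup (Option β)

noncomputable def Zh : Multiplicative ℤ →* (PS k β)ˣ :=
  MonoidHom.toHomUnits
    { toFun := fun d => C (single (⟨[], d.toAdd⟩ : W β) (1 : k))
      map_one' := by rw [← map_one (C (R := MonoidAlgebra k (W β)))]; rfl
      map_mul' := fun a b => by rw [← map_mul, single_mul_single, one_mul]; rfl }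

theorem Zh_val (d : ℤ) :
    (Zh k β (Multiplicative.ofAdd d) : PS k β) = C (single (⟨[], d⟩ : W β) (1 : k)) := rfl

noncomputable def μ0 : F β →* (PS k β)ˣ := FreeGroup.lift fun x => match x with
  | none => Zh k β (Multiplicative.ofAdd 1)
  | some x => U (single (⟨[toLex (x, 0)], 0⟩ : W β) (1 : k))

noncomputable def μ : MonoidAlgebra k (F β) →ₐ[k] PS k β :=
  MonoidAlgebra.lift k (PS k β) (F β) ((Units.coeHom _).comp (μ0 k β))

def φ : F β →* Multiplicative ℤ := FreeGroup.lift fun x => match x with
  | none => Multiplicative.ofAdd 1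
  | some _ => 1

variable {k β}

def deg (h : F β) : ℤ := (φ β h).toAdd

theorem deg_mul (a b : F β) : deg (a * b) = deg a + deg b := by simp [deg]
theorem deg_one : deg (1 : F β) = 0 := by simp [deg]
theorem deg_inv (a : F β) : deg a⁻¹ = - deg a := by simp [deg]
theorem deg_none : deg (FreeGroup.of none : F β) = 1 := by simp [deg, φ]
theorem deg_some (x : β) : deg (FreeGroup.of (some x) : F β) = 0 := by simp [deg, φ]

theorem μ_single (h : F β) (c : k) : μ k β (single h c) = c • (μ0 k β h : PS k β) := by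
  simp [μ]

theorem μ0_z (s : ℤ) : (μ0 k β (FreeGroup.of none ^ s) : PS k β) =
    C (single (⟨[], s⟩ : W β) (1 : k)) := by
  rw [map_zpow, μ0, FreeGroup.lift_apply_of, ← map_zpow, ← ofAdd_zsmul, smul_eq_mul, mul_one,
    Zh_val]

/-- support condition -/
def Sp (P : ℕ → W β → Prop) (s : PS k β) : Prop :=
  ∀ n g, (coeff n s).coeff g ≠ 0 → P n g

theorem Sp.mul {P Q R : ℕ → W β → Prop} {s t : PS k β} (hs : Sp P s) (ht : Sp Q t)
    (h : ∀ n g m g', P n g → Q m g' → R (n + m) (g * g')) : Sp R (s * t) := by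
  classical
  intro n g hg
  rw [PowerSeries.coeff_mul, MonoidAlgebra.coeff_sum, Finsupp.finsetSum_apply] at hg
  obtain ⟨⟨i, j⟩, hij, hne⟩ := Finset.exists_ne_zero_of_sum_ne_zero hg
  obtain ⟨a, ha, b, hb, rfl⟩ := Finset.mem_mul.1
    (support_coeff_mul_subset _ _ (Finsupp.mem_support_iff.2 hne))
  rw [← Finset.HasAntidiagonal.mem_antidiagonal.1 hij]
  exact h _ _ _ _ (hs _ _ (Finsupp.mem_support_iff.1 ha)) (ht _ _ (Finsupp.mem_support_iff.1 hb))

theorem Sp.add {P : ℕ → W β → Prop} {s t : PS k β} (hs : Sp P s) (ht : Sp P t) :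
    Sp P (s + t) := by
  intro n g hg
  rw [map_add, MonoidAlgebra.coeff_add, Finsupp.add_apply] at hg
  by_cases h : (coeff n s).coeff g = 0
  · rw [h, zero_add] at hg; exact ht _ _ hg
  · exact hs _ _ h

theorem Sp.smul {P : ℕ → W β → Prop} {s : PS k β} (hs : Sp P s) (c : k) : Sp P (c • s) := by
  intro n g hg
  refine hs n g fun h => hg ?_
  rw [PowerSeries.coeff_smul, coeff_smul_apply, h, smul_zero]

theorem Sp.mono {P Q : ℕ → W β → Prop} {s : PS k β} (hs : Sp P s) (h : ∀ n g, P n g → Q n g) :
    Sp Q s := fun n g hg => h n g (hs n g hg)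

theorem eq_of_single {g g' : W β} {c : k} (h : (single g c).coeff g' ≠ 0) : g' = g := by
  by_contra hne
  exact h (by rw [MonoidAlgebra.coeff_single, Finsupp.single_eq_of_ne hne])

theorem Sp_C {P : ℕ → W β → Prop} {g : W β} (c : k) (h : P 0 g) : Sp P (C (single g c)) := by
  intro n g' hg
  rw [coeff_C] at hg
  split_ifs at hg with hn
  · rw [hn, eq_of_single hg]; exact h
  · simp at hg

theorem Sp_one {P : ℕ → W β → Prop} (h : P 0 1) : Sp P (1 : PS k β) := by
  rw [← map_one C]; exact Sp_C 1 h

theorem Sp_XC {P : ℕ → W β → Prop} {g : W β} (c : k) (h : P 1 g) :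
    Sp P (X * C (single g c)) := by
  intro n g' hg
  cases n with
  | zero => simp at hg
  | succ n =>
    rw [coeff_succ_X_mul] at hg
    exact Sp_C (P := fun n g => P (n + 1) g) c h n g' hg

theorem Sp_μ0 (h : F β) :
    Sp (fun n g => g.w.length = n ∧ g.d = deg h) (μ0 k β h : PS k β) := by
  induction h using FreeGroup.induction_on with
  | C1 => rw [map_one]; exact Sp_one ⟨rfl, deg_one.symm⟩
  | of x =>
    cases x with
    | none =>
      have := μ0_z (k := k) (β := β) 1
      rw [zpow_one] at this
      rw [this]; exact Sp_C _ ⟨rfl, deg_none.symm⟩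
    | some x =>
      rw [μ0, FreeGroup.lift_apply_of, deg_some]
      exact (Sp_one ⟨rfl, rfl⟩).add (Sp_XC _ ⟨rfl, rfl⟩)
  | inv_of x _ =>
    cases x with
    | none =>
      have := μ0_z (k := k) (β := β) (-1)
      rw [zpow_neg_one] at this
      rw [this]; exact Sp_C _ ⟨rfl, by rw [deg_inv, deg_none]⟩
    | some x =>
      rw [map_inv, μ0, FreeGroup.lift_apply_of, deg_inv, deg_some]
      intro n g hg
      change (PowerSeries.coeff n (PowerSeries.mk fun n =>
        (-single (⟨[toLex (x, 0)], 0⟩ : W β) (1 : k)) ^ n)).coeff g ≠ 0 at hg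
      rw [coeff_mk, ← single_neg, single_pow] at hg
      rw [eq_of_single hg]
      clear hg
      induction n with
      | zero => exact ⟨rfl, rfl⟩
      | succ n ih => rw [pow_succ]; simp [ih.1, ih.2]
  | mul a b ha hb =>
    rw [map_mul, Units.val_mul]
    refine ha.mul hb fun n g m g' h1 h2 => ?_
    simp [h1.1, h1.2, h2.1, h2.2, deg_mul]

theorem Sp_μ (a : MonoidAlgebra k (F β)) :
    Sp (fun n g => g.w.length = n ∧ ∃ h ∈ a.coeff.support, g.d = deg h) (μ k β a) := by
  intro n g hg
  rw [← sum_coeff_single a, Finsupp.sum, map_sum, map_sum, MonoidAlgebra.coeff_sum,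
    Finsupp.finsetSum_apply] at hg
  obtain ⟨h, hh, hne⟩ := Finset.exists_ne_zero_of_sum_ne_zero hg
  rw [μ_single] at hne
  have := (Sp_μ0 h).smul _ n g hne
  exact ⟨this.1, h, hh, this.2⟩

/-- conjugates of the generators -/
def Y (y : β ×ₗ ℤ) : F β :=
  FreeGroup.of none ^ (ofLex y).2 * FreeGroup.of (some (ofLex y).1) *
    FreeGroup.of none ^ (-(ofLex y).2)

theorem μ0_Y (y : β ×ₗ ℤ) :
    (μ0 k β (Y y) : PS k β) = 1 + X * C (single (⟨[y], 0⟩ : W β) (1 : k)) := by
  rw [Y, map_mul, map_mul, Units.val_mul, Units.val_mul, μ0_z, μ0_z, μ0, FreeGroup.lift_apply_of]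
  change _ * (1 + X * C _) * _ = _
  rw [mul_add, add_mul, mul_one, ← map_mul, ← mul_assoc, (commute_X _).eq, mul_assoc, mul_assoc,
    ← map_mul, ← map_mul, single_mul_single, single_mul_single, single_mul_single]
  have e1 : (⟨[], (ofLex y).2⟩ : W β) * ⟨[], -(ofLex y).2⟩ = 1 := W.ext rfl (by simp)
  have e2 : (⟨[], (ofLex y).2⟩ : W β) * (⟨[toLex ((ofLex y).1, 0)], 0⟩ * ⟨[], -(ofLex y).2⟩) =
      ⟨[y], 0⟩ := W.ext (by simp [sh]) (by simp)
  rw [e1, e2, one_mul, one_mul, ← MonoidAlgebra.one_def, map_one]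

open Classical in
noncomputable def ev (y : β ×ₗ ℤ) : List (β ×ₗ ℤ) → Bool
  | [] => false
  | y' :: w => if y = y' then !(ev y w) else false

variable (k) in
noncomputable def Bw : List (β ×ₗ ℤ) → MonoidAlgebra k (F β)
  | [] => 1
  | y :: w => (single (Y y) 1 - 1) * (if ev y w then single (Y y)⁻¹ 1 else 1) * Bw w

variable (k) in
noncomputable def Bg (g : W β) : MonoidAlgebra k (F β) :=
  Bw k g.w * single (FreeGroup.of none ^ g.d) 1

theorem Y_mul (y : β ×ₗ ℤ) (v : MonoidAlgebra k (F β))
    (hv : v ∈ Submodule.span k (Set.range (Bg k (β := β)))) :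
    single (Y y) 1 * v ∈ Submodule.span k (Set.range (Bg k (β := β))) ∧
    single (Y y)⁻¹ 1 * v ∈ Submodule.span k (Set.range (Bg k (β := β))) := by
  induction hv using Submodule.span_induction with
  | zero => simp
  | add a b _ _ ha hb =>
    rw [mul_add, mul_add]; exact ⟨add_mem ha.1 hb.1, add_mem ha.2 hb.2⟩
  | smul c a _ ha =>
    rw [mul_smul_comm, mul_smul_comm]
    exact ⟨Submodule.smul_mem _ _ ha.1, Submodule.smul_mem _ _ ha.2⟩
  | mem v hv =>
    obtain ⟨⟨w, d⟩, rfl⟩ := hv
    have m : ∀ g, Bg k g ∈ Submodule.span k (Set.range (Bg k (β := β))) :=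
      fun g => Submodule.subset_span ⟨g, rfl⟩
    have m0 := m ⟨w, d⟩
    have m1 := m ⟨y :: w, d⟩
    have m2 := m ⟨y :: y :: w, d⟩
    have e1 : ∀ v : MonoidAlgebra k (F β), single (Y y) 1 * (single (Y y)⁻¹ 1 * v) = v := by
      intro v
      rw [← mul_assoc, single_mul_single, mul_inv_cancel, one_mul, ← MonoidAlgebra.one_def, one_mul]
    have e2 : ∀ v : MonoidAlgebra k (F β), single (Y y)⁻¹ 1 * (single (Y y) 1 * v) = v := by
      intro v
      rw [← mul_assoc, single_mul_single, inv_mul_cancel, one_mul, ← MonoidAlgebra.one_def, one_mul]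
    cases hy : ev y w
    · constructor
      · convert add_mem m1 m0 using 1
        simp only [Bg, Bw, hy, Bool.false_eq_true, if_false, sub_mul, mul_assoc, one_mul]
        abel
      · convert add_mem (sub_mem m2 m1) m0 using 1
        simp only [Bg, Bw, ev, hy, Bool.false_eq_true, if_false, if_true, Bool.not_false, sub_mul,
          mul_sub, mul_assoc, one_mul, mul_one, e1, e2]
        abel
    · constructor
      · convert add_mem (add_mem m2 m1) m0 using 1
        simp only [Bg, Bw, ev, hy, Bool.false_eq_true, if_false, if_true, Bool.not_true, sub_mul,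
          mul_sub, mul_assoc, one_mul, mul_one, e1]
        abel
      · convert sub_mem m0 m1 using 1
        simp only [Bg, Bw, hy, if_true, sub_mul, mul_assoc, one_mul, e1]
        abel

theorem conj_mul (h : F β) : ∀ (s : ℤ) (v : MonoidAlgebra k (F β)),
    v ∈ Submodule.span k (Set.range (Bg k (β := β))) →
    single (FreeGroup.of none ^ s * h * FreeGroup.of none ^ (-(s + deg h))) 1 * v ∈
      Submodule.span k (Set.range (Bg k (β := β))) := by
  induction h using FreeGroup.induction_on with
  | C1 =>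
    intro s v hv
    rwa [deg_one, add_zero, mul_one, ← zpow_add, add_neg_cancel, zpow_zero,
      ← MonoidAlgebra.one_def, one_mul]
  | of x =>
    intro s v hv
    cases x with
    | none =>
      rwa [deg_none, ← zpow_add_one, ← zpow_add, add_neg_cancel, zpow_zero,
        ← MonoidAlgebra.one_def, one_mul]
    | some x =>
      rw [deg_some, add_zero]
      exact (Y_mul (toLex (x, s)) v hv).1
  | inv_of x _ =>
    intro s v hv
    cases x with
    | none =>
      rwa [deg_inv, deg_none, ← zpow_sub_one, ← zpow_add, ← sub_eq_add_neg s, add_neg_cancel,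
        zpow_zero, ← MonoidAlgebra.one_def, one_mul]
    | some x =>
      rw [deg_inv, deg_some, neg_zero, add_zero]
      convert (Y_mul (toLex (x, s)) v hv).2 using 3
      simp [Y, mul_assoc]
  | mul a b ha hb =>
    intro s v hv
    convert ha s _ (hb (s + deg a) v hv) using 1
    rw [← mul_assoc (single _ _), single_mul_single, one_mul, deg_mul]
    congr 2
    rw [add_assoc]
    group

theorem span_top (a : MonoidAlgebra k (F β)) :
    a ∈ Submodule.span k (Set.range (Bg k (β := β))) := by
  induction a using MonoidAlgebra.induction_linear with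
  | zero => exact zero_mem _
  | add a b ha hb => exact add_mem ha hb
  | single h c =>
    have := conj_mul h 0 _ (Submodule.subset_span (R := k) ⟨⟨[], deg h⟩, rfl⟩)
    rw [Bg, Bw, one_mul, single_mul_single] at this
    convert Submodule.smul_mem _ c this using 1
    rw [smul_single', one_mul, mul_one]
    congr 1
    group

theorem lead_w (w : List (β ×ₗ ℤ)) : ∃ p : PS k β, μ k β (Bw k w) = X ^ w.length * p ∧
    constantCoeff p = single (⟨w, 0⟩ : W β) 1 := by
  induction w with
  | nil => exact ⟨1, by simp [Bw], by rw [map_one]; rfl⟩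
  | cons y w ih =>
    obtain ⟨p, h1, h2⟩ := ih
    have hq : constantCoeff (μ k β (if ev y w then single (Y y)⁻¹ 1 else 1)) = 1 := by
      split_ifs
      · have := congrArg constantCoeff (μ0 k β (Y y)).inv_mul
        rw [μ0_Y, map_mul] at this
        rw [μ_single, one_smul, map_inv]
        simpa using this
      · simp
    refine ⟨C (single (⟨[y], 0⟩ : W β) (1 : k)) *
      μ k β (if ev y w then single (Y y)⁻¹ 1 else 1) * p, ?_, ?_⟩
    · rw [Bw, map_mul, map_mul, map_sub, map_one, μ_single, one_smul, μ0_Y, add_sub_cancel_left, h1,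
        List.length_cons, pow_succ', ← ((commute_X p).pow_right _).eq, mul_assoc X (X ^ _),
        ← ((commute_X _).pow_right _).eq]
      simp only [mul_assoc]
    · rw [map_mul, map_mul, hq, h2, constantCoeff_C, mul_one, single_mul_single, one_mul]
      congr 1
      exact W.ext (by simp [funext sh_zero]) (by simp)

theorem lead (g : W β) (n : ℕ) (hn : n ≤ g.w.length) :
    coeff n (μ k β (Bg k g)) = if g.w.length = n then single g 1 else 0 := by
  obtain ⟨p, h1, h2⟩ := lead_w (k := k) g.w
  rw [Bg, map_mul, h1, μ_single, one_smul, μ0_z, mul_assoc, coeff_X_pow_mul']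
  by_cases h : g.w.length = n
  · rw [if_pos h.le, if_pos h, h, Nat.sub_self, coeff_zero_eq_constantCoeff, map_mul, h2,
      constantCoeff_C, single_mul_single, one_mul]
    congr 1
    exact W.ext (by simp) (by simp)
  · rw [if_neg (by omega), if_neg h]

theorem μ_inj (a : MonoidAlgebra k (F β)) (ha : μ k β a = 0) : a = 0 := by
  classical
  obtain ⟨c, rfl⟩ := Finsupp.mem_span_range_iff_exists_finsupp.1 (span_top a)
  by_cases hc : c = 0
  · simp [hc]
  obtain ⟨g, hg, hmin⟩ := Finset.exists_min_image c.support (fun g => g.w.length)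
    (Finsupp.support_nonempty_iff.2 hc)
  have := congrArg (fun s : PS k β => (coeff g.w.length s).coeff g) ha
  simp only [Finsupp.sum, map_sum, map_smul, MonoidAlgebra.coeff_sum, Finsupp.finsetSum_apply,
    map_zero, MonoidAlgebra.coeff_zero, Finsupp.zero_apply] at this
  rw [Finset.sum_eq_single g] at this
  · rw [PowerSeries.coeff_smul, lead g _ le_rfl, if_pos rfl] at this
    exact absurd (by simpa using this) (Finsupp.mem_support_iff.1 hg)
  · intro b hb hne
    rw [PowerSeries.coeff_smul, lead b _ (hmin b hb)]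
    split_ifs
    · simp [Finsupp.single_eq_of_ne hne.symm]
    · simp
  · intro h; exact absurd hg h

end Pool.Agent.H.MP_baf2fc_al
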