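import Pool.Agent.H.MP_baf2fc_al.Core

set_option autoImplicit false

namespace Pool.Agent.H.MP_baf2fc_al

open MonoidAlgebra

theorem red {k : Type} [Field k] {G β : Type} [Group G] (s : Finset (MonoidAlgebra k G))
    (ι : F β →* G) (hι : Function.Injective ι)
    (hr : ∀ a ∈ s, ∀ h ∈ a.coeff.support, h ∈ Set.range ι)
    (hz : ι (FreeGroup.of none) ∈ Subgroup.closure {h | ∃ a ∈ s, h ∈ a.coeff.support}) :
    ∃ f : Algebra.adjoin k (s : Set (MonoidAlgebra k G)) →ₐ[k] LaurentPolynomial k,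
      f.range ≠ ⊥ := by
  classical
  let m : MonoidAlgebra k (F β) →ₐ[k] MonoidAlgebra k G := mapDomainAlgHom k k ι
  have hm : Function.Injective m := mapDomain_injective hι
  let s' : Finset (MonoidAlgebra k (F β)) := s.image (comapDomain ι hι)
  have hs : m '' s' = s := by
    rw [Finset.coe_image, Set.image_image]
    refine (Set.image_congr fun a ha => ?_).trans (Set.image_id _)
    exact mapDomain_comapDomain (fun h hh => hr a ha h hh) hι
  obtain ⟨a1, ha1, h1, hh1, hd⟩ : ∃ a ∈ s', ∃ h ∈ a.coeff.support, deg h ≠ 0 := by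
    by_contra hc
    push Not at hc
    have : Subgroup.closure {h | ∃ a ∈ s, h ∈ a.coeff.support} ≤ (φ β).ker.map ι := by
      refine (Subgroup.closure_le _).2 ?_
      rintro h ⟨a, ha, hh⟩
      obtain ⟨y, rfl⟩ := hr a ha h hh
      have := hc _ (Finset.mem_image_of_mem _ ha) y (by simpa using hh)
      exact ⟨y, toAdd_eq_zero.1 this, rfl⟩
    obtain ⟨y, hy, ey⟩ := this hz
    have hy' : deg y = 0 := toAdd_eq_zero.2 hy
    rw [hι ey, deg_none] at hy'
    exact one_ne_zero hy'
  obtain ⟨f, hf⟩ := core s' a1 ha1 h1 hh1 hd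
  have hmap : (Algebra.adjoin k (s' : Set (MonoidAlgebra k (F β)))).map m =
      Algebra.adjoin k (s : Set (MonoidAlgebra k G)) := by
    rw [AlgHom.map_adjoin, hs]
  let E := ((Algebra.adjoin k (s' : Set (MonoidAlgebra k (F β)))).equivMapOfInjective m hm).trans
    (Subalgebra.equivOfEq _ _ hmap)
  refine ⟨f.comp E.symm.toAlgHom, fun h => hf ?_⟩
  rw [eq_bot_iff, ← h]
  rintro _ ⟨y, rfl⟩
  exact ⟨E y, congrArg f (E.symm_apply_apply y)⟩

theorem emb {G : Type} [Group G] [IsFreeGroup G] [Nontrivial G] :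
    ∃ β : Type, Nonempty (F β ≃* G) := by
  classical
  have hH : Nonempty (IsFreeGroup.Generators G) := by
    by_contra hc
    have : IsEmpty (IsFreeGroup.Generators G) := not_nonempty_iff.1 hc
    exact not_subsingleton G (IsFreeGroup.toFreeGroup G).injective.subsingleton
  obtain ⟨x0⟩ := hH
  exact ⟨{b // b ≠ x0},
    ⟨(FreeGroup.freeGroupCongr (Equiv.optionSubtypeNe x0)).trans (IsFreeGroup.mulEquiv G)⟩⟩

theorem main (k : Type) [Field k] (α : Type) (R : Subalgebra k (MonoidAlgebra k (FreeGroup α)))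
    (hR : R.FG) (hne : R ≠ ⊥) : ∃ f : R →ₐ[k] LaurentPolynomial k, f.range ≠ ⊥ := by
  obtain ⟨s, rfl⟩ := hR
  have : Nontrivial (Subgroup.closure {h : FreeGroup α | ∃ a ∈ s, h ∈ a.coeff.support}) := by
    rw [Subgroup.nontrivial_iff_ne_bot]
    intro hb
    apply hne
    rw [eq_bot_iff]
    refine Algebra.adjoin_le fun a ha => Algebra.mem_bot.2 ⟨a.coeff 1, ?_⟩
    ext h
    by_cases h1 : h = 1
    · simp [h1]
    · have : a.coeff h = 0 := by
        by_contra h0
        exact h1 (Subgroup.mem_bot.1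
          (hb ▸ Subgroup.subset_closure ⟨a, ha, Finsupp.mem_support_iff.2 h0⟩))
      simp [this, Finsupp.single_eq_of_ne h1]
  obtain ⟨β, ⟨e⟩⟩ := emb (G := Subgroup.closure {h : FreeGroup α | ∃ a ∈ s, h ∈ a.coeff.support})
  exact red s ((Subgroup.subtype _).comp e.toMonoidHom)
    ((Subgroup.subtype_injective _).comp e.injective)
    (fun a ha h hh => ⟨e.symm ⟨h, Subgroup.subset_closure ⟨a, ha, hh⟩⟩, by simp⟩) (e _).2

end Pool.Agent.H.MP_baf2fc_al
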