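import Mathlib

set_option autoImplicit false

namespace Pool.Agent.H.MP_baf2fc_al

variable {β : Type}

/-- shift of a letter -/
def sh (d : ℤ) (y : β ×ₗ ℤ) : β ×ₗ ℤ := toLex ((ofLex y).1, (ofLex y).2 + d)

theorem sh_zero (y : β ×ₗ ℤ) : sh 0 y = y := by simp [sh]

theorem sh_sh (a b : ℤ) (y : β ×ₗ ℤ) : sh a (sh b y) = sh (a + b) y := by
  simp [sh, add_assoc, add_comm]

theorem sh_lt [LinearOrder β] (d : ℤ) {y y' : β ×ₗ ℤ} (h : y < y') : sh d y < sh d y' := by
  rw [Prod.Lex.lt_iff] at h ⊢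
  simpa [sh] using h

/-- words with a displacement -/
@[ext] structure W (β : Type) where
  w : List (β ×ₗ ℤ)
  d : ℤ

instance : Mul (W β) := ⟨fun a b => ⟨a.w ++ b.w.map (sh a.d), a.d + b.d⟩⟩
instance : One (W β) := ⟨⟨[], 0⟩⟩

@[simp] theorem mul_w (a b : W β) : (a * b).w = a.w ++ b.w.map (sh a.d) := rfl
@[simp] theorem mul_d (a b : W β) : (a * b).d = a.d + b.d := rfl
@[simp] theorem one_w : (1 : W β).w = [] := rfl
@[simp] theorem one_d : (1 : W β).d = 0 := rfl

instance : Monoid (W β) where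
  mul_assoc a b c := W.ext (by simp [Function.comp_def, sh_sh]) (by simp [add_assoc])
  one_mul a := W.ext (by simp [funext sh_zero]) (by simp)
  mul_one a := W.ext (by simp) (by simp)

/-- action on infinite words -/
def act (g : W β) (ω : ℕ → β ×ₗ ℤ) (j : ℕ) : β ×ₗ ℤ :=
  if h : j < g.w.length then g.w[j] else sh g.d (ω (j - g.w.length))

theorem act_one (ω : ℕ → β ×ₗ ℤ) : act 1 ω = ω := by
  funext j; simp [act, sh_zero]

theorem act_mul (a b : W β) (ω : ℕ → β ×ₗ ℤ) : act (a * b) ω = act a (act b ω) := by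
  funext j
  simp only [act, mul_w, mul_d, List.length_append, List.length_map]
  by_cases h1 : j < a.w.length
  · rw [dif_pos (by omega), dif_pos h1, List.getElem_append_left h1]
  · rw [dif_neg h1]
    by_cases h2 : j - a.w.length < b.w.length
    · rw [dif_pos (by omega), dif_pos h2, List.getElem_append_right (by omega), List.getElem_map]
    · rw [dif_neg (by omega), dif_neg h2, sh_sh, Nat.sub_sub]

theorem act_agree (g : W β) {ω ω' : ℕ → β ×ₗ ℤ} {i : ℕ} (h : ∀ j < i, ω j = ω' j) :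
    ∀ j < i + g.w.length, act g ω j = act g ω' j := by
  intro j hj
  unfold act
  split_ifs with h1
  · rfl
  · rw [h _ (by omega)]

/-- the periodic word fixed by `g` -/
def fix (g : W β) (hg : 0 < g.w.length) (j : ℕ) : β ×ₗ ℤ :=
  if h : j < g.w.length then g.w[j] else sh g.d (fix g hg (j - g.w.length))
termination_by j
decreasing_by omega

theorem act_fix (g : W β) (hg : 0 < g.w.length) : act g (fix g hg) = fix g hg := by
  funext j; rw [act]; exact (fix.eq_1 g hg j).symm

section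
variable [LinearOrder β]

theorem act_lt (g : W β) {ω ω' : ℕ → β ×ₗ ℤ} (h : toLex ω < toLex ω') :
    toLex (act g ω) < toLex (act g ω') := by
  obtain ⟨i, h1, h2⟩ := h
  refine ⟨i + g.w.length, fun j hj => act_agree g h1 j hj, ?_⟩
  show act g ω _ < act g ω' _
  unfold act
  rw [dif_neg (by omega), dif_neg (by omega), Nat.add_sub_cancel]
  exact sh_lt _ h2

theorem act_le (g : W β) {ω ω' : ℕ → β ×ₗ ℤ} (h : toLex ω ≤ toLex ω') :
    toLex (act g ω) ≤ toLex (act g ω') := by
  rcases h.lt_or_eq with h | h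
  · exact (act_lt g h).le
  · rw [toLex.injective h]

theorem act_le_of_fix (g : W β) (hg : 0 < g.w.length) {ζ : ℕ → β ×ₗ ℤ}
    (h : toLex (fix g hg) ≤ toLex ζ) : toLex (act g ζ) ≤ toLex ζ := by
  rcases h.lt_or_eq with h | h
  · obtain ⟨i, h1, h2⟩ := h
    have := act_agree (ω := fix g hg) (ω' := ζ) g h1
    rw [act_fix] at this
    refine le_of_lt ⟨i, fun j hj => ?_, ?_⟩
    · exact (this j (by omega)).symm.trans (h1 j hj)
    · show act g ζ i < ζ i
      rw [← this i (by omega)]; exact h2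
  · rw [← toLex.injective h, act_fix]

end

theorem select (P : Set (W β)) (hfin : ∀ N, {g ∈ P | g.w.length ≤ N}.Finite)
    (D : ℤ) (hD : ∀ g ∈ P, |g.d| ≤ D) (h0 : ∀ g ∈ P, g.w.length = 0 → g = 1)
    (g1 : W β) (hg1 : g1 ∈ P) (hd1 : g1.d ≠ 0) :
    ∃ good stab : W β → Prop, good 1 ∧ stab 1 ∧ (∀ a b, good a → good b → good (a * b)) ∧
      (∀ a b, good a → good b → (stab (a * b) ↔ stab a ∧ stab b)) ∧ (∀ g ∈ P, good g) ∧
      (∃ g ∈ P, stab g ∧ 0 < g.w.length) ∧
      (∀ a b, stab a → stab b → a.w.length = b.w.length → a = b) ∧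
      (∀ D' : ℤ, ∃ N, ∀ g, stab g → |g.d| ≤ D' → g.w.length ≤ N) := by
  classical
  let _ : LinearOrder β := IsWellOrder.linearOrder WellOrderingRel
  obtain ⟨ε, hε, hε1⟩ : ∃ ε : ℤ, (ε = 1 ∨ ε = -1) ∧ 0 < ε * g1.d := by
    rcases lt_or_gt_of_ne hd1 with h | h
    · exact ⟨-1, Or.inr rfl, by omega⟩
    · exact ⟨1, Or.inl rfl, by omega⟩
  have hεD : ∀ x : ℤ, ε * x ≤ |x| := fun x => by
    rcases hε with rfl | rfl
    · simpa using le_abs_self x
    · simpa using neg_le_abs x
  have hn1 : 0 < g1.w.length := Nat.pos_of_ne_zero fun h => hd1 (by rw [h0 g1 hg1 h]; rfl)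
  have hD1 : 1 ≤ D := by have := hD g1 hg1; have := hεD g1.d; omega
  let E : Set {g : W β // 0 < g.w.length} :=
    {g | g.1 ∈ P ∧ g.1.w.length ≤ D.toNat * g1.w.length}
  have hE : E.Finite := (hfin (D.toNat * g1.w.length)).preimage Subtype.val_injective.injOn
  have hg1E : (⟨g1, hn1⟩ : {g : W β // 0 < g.w.length}) ∈ E :=
    ⟨hg1, Nat.le_mul_of_pos_left _ (by omega)⟩
  obtain ⟨⟨g0, hn0⟩, hg0E, hmax⟩ := Set.exists_max_image E
    (fun g => toLex (((ε * g.1.d : ℤ) : ℚ) / (g.1.w.length : ℚ), toLex (fix g.1 g.2))) hE ⟨_, hg1E⟩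
  have key : ∀ g : {g : W β // 0 < g.w.length}, g ∈ E →
      (g0.w.length : ℤ) * (ε * g.1.d) < (ε * g0.d) * g.1.w.length ∨
      ((g0.w.length : ℤ) * (ε * g.1.d) = (ε * g0.d) * g.1.w.length ∧
        toLex (fix g.1 g.2) ≤ toLex (fix g0 hn0)) := by
    intro g hg
    have := hmax g hg
    have p1 : (0 : ℚ) < g.1.w.length := by exact_mod_cast g.2
    have p0 : (0 : ℚ) < g0.w.length := by exact_mod_cast hn0
    rw [Prod.Lex.le_iff] at this
    simp only [ofLex_toLex] at this
    rcases this with h | ⟨h, h'⟩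
    · left
      rw [div_lt_div_iff₀ p1 p0, mul_comm] at h
      exact_mod_cast h
    · right
      rw [div_eq_div_iff p1.ne' p0.ne', mul_comm] at h
      exact ⟨by exact_mod_cast h, h'⟩
  have k1 : (g0.w.length : ℤ) * (ε * g1.d) ≤ (ε * g0.d) * g1.w.length := by
    rcases key _ hg1E with h | h
    · exact h.le
    · exact h.1.le
  have q0 : (0 : ℤ) < g0.w.length := by exact_mod_cast hn0
  have q1 : (0 : ℤ) < g1.w.length := by exact_mod_cast hn1
  have hd0 : 0 < ε * g0.d := by
    by_contra h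
    nlinarith [mul_pos q0 hε1]
  set ζ := fix g0 hn0
  set n0 : ℤ := (g0.w.length : ℤ)
  set d0 : ℤ := ε * g0.d
  refine ⟨fun g => n0 * (ε * g.d) < d0 * g.w.length ∨
      (n0 * (ε * g.d) = d0 * g.w.length ∧ toLex (act g ζ) ≤ toLex ζ),
    fun g => n0 * (ε * g.d) = d0 * g.w.length ∧ act g ζ = ζ, Or.inr ⟨by simp, by rw [act_one]⟩,
    ⟨by simp, act_one _⟩, ?_, ?_, ?_, ⟨g0, hg0E.1, ⟨mul_comm _ _, act_fix _ _⟩, hn0⟩, ?_, ?_⟩
  · intro a b ha hb
    simp only [mul_w, mul_d, List.length_append, List.length_map, Nat.cast_add, mul_add]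
    rcases ha with ha | ha <;> rcases hb with hb | hb
    · left; omega
    · left; omega
    · left; omega
    · right
      refine ⟨by omega, ?_⟩
      rw [act_mul]; exact (act_le a hb.2).trans ha.2
  · intro a b ha hb
    simp only [mul_w, mul_d, List.length_append, List.length_map, Nat.cast_add, mul_add, act_mul]
    constructor
    · rintro ⟨e1, e2⟩
      rcases ha with ha | ha <;> rcases hb with hb | hb
      · omega
      · omega
      · omega
      · have hb' : act b ζ = ζ := by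
          rcases hb.2.lt_or_eq with h | h
          · have := (act_lt a h).trans_le ha.2
            rw [e2] at this
            exact absurd this (lt_irrefl _)
          · exact toLex.injective h
        rw [hb'] at e2
        exact ⟨⟨ha.1, e2⟩, hb.1, hb'⟩
    · rintro ⟨⟨e1, e2⟩, e3, e4⟩
      exact ⟨by omega, by rw [e4, e2]⟩
  · intro g hg
    rcases Nat.eq_zero_or_pos g.w.length with h | h
    · rw [h0 g hg h]; exact Or.inr ⟨by simp, by rw [act_one]⟩
    by_cases hl : g.w.length ≤ D.toNat * g1.w.length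
    · rcases key ⟨g, h⟩ ⟨hg, hl⟩ with h' | h'
      · exact Or.inl h'
      · exact Or.inr ⟨h'.1, act_le_of_fix g h h'.2⟩
    · left
      have hl' : D * g1.w.length < g.w.length := by
        have : ((D.toNat * g1.w.length : ℕ) : ℤ) < g.w.length := by exact_mod_cast not_le.1 hl
        rwa [Nat.cast_mul, Int.toNat_of_nonneg (by omega)] at this
      have a1 : ε * g.d ≤ D := (hεD _).trans (hD g hg)
      have a2 : n0 ≤ d0 * g1.w.length := by nlinarith
      have a3 : n0 * (ε * g.d) ≤ n0 * D := by nlinarith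
      have a4 : n0 * D ≤ d0 * g1.w.length * D := by nlinarith
      nlinarith
  · rintro a b ⟨a1, a2⟩ ⟨b1, b2⟩ h
    refine W.ext (List.ext_getElem h fun i h1 h2 => ?_) ?_
    · have e1 := congrFun a2 i
      have e2 := congrFun b2 i
      rw [act, dif_pos h1] at e1
      rw [act, dif_pos h2] at e2
      rw [e1, e2]
    · rw [h, ← b1] at a1
      have := mul_left_cancel₀ q0.ne' a1
      rcases hε with rfl | rfl <;> omega
  · intro D'
    refine ⟨(n0 * D').toNat, fun g hg hd => ?_⟩
    have a1 : ε * g.d ≤ D' := (hεD _).trans hd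
    have a2 : (g.w.length : ℤ) ≤ n0 * D' := by
      have := hg.1
      have : (0 : ℤ) ≤ g.w.length := by positivity
      nlinarith
    omega

end Pool.Agent.H.MP_baf2fc_al
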